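import Pool.Agent.Y685.SY.Stm

/-!
# Extension by zero of a function with compact support in a chart
-/

set_option autoImplicit false
set_option maxSynthPendingDepth 3
set_option linter.unusedSectionVars false

open scoped Manifold ContDiff Topology
open Set Metric

namespace Pool.Agent.Y614.SY

open Pool.Agent.Y685.SY

variable {E : Type} [NormedAddCommGroup E] [InnerProductSpace ℝ E] [FiniteDimensional ℝ E]
  {M : Type} [TopologicalSpace M] [ChartedSpace E M]

lemma trD_open (e e' : OpenPartialHomeomorph M E) : IsOpen (trD e e') :=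
  e.isOpen_inter_preimage_symm e'.open_source

lemma tr_smooth [IsManifold 𝓘(ℝ, E) ∞ M] {e e' : OpenPartialHomeomorph M E}
    (he : e ∈ atlas E M) (he' : e' ∈ atlas E M) : ContDiffOn ℝ ∞ (tr e e') (trD e e') := by
  have h := (contDiffGroupoid ∞ 𝓘(ℝ, E)).compatible he he'
  rw [contDiffGroupoid, mem_groupoid_of_pregroupoid] at h
  have h1 := h.1
  simp only [contDiffPregroupoid, modelWithCornersSelf_coe, modelWithCornersSelf_coe_symm,
    Set.range_id, Set.preimage_id, Set.inter_univ, Function.id_comp, Function.comp_id] at h1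
  exact h1

theorem t_EXT0 [IsManifold 𝓘(ℝ, E) ∞ M] : S_EXT0 E M := by
  intro _ e₀ he₀ χ hχ hc hs e he y hy
  constructor
  · intro h0
    have hyD : y ∈ trD e e₀ := ⟨hy, h0⟩
    have hD : trD e e₀ ∈ 𝓝 y := (trD_open e e₀).mem_nhds hyD
    have h1 : HasFDerivAt (tr e e₀) (fderiv ℝ (tr e e₀) y) y :=
      (((tr_smooth he he₀).contDiffAt hD).differentiableAt (by simp)).hasFDerivAt
    have h2 : HasFDerivAt χ (fderiv ℝ χ (tr e e₀ y)) (tr e e₀ y) :=
      ((hχ.differentiable (by simp)) _).hasFDerivAt
    have h3 := h2.comp y h1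
    refine h3.congr_of_eventuallyEq ?_
    filter_upwards [hD] with z hz
    have hz2 : e.symm z ∈ e₀.source := hz.2
    rw [Set.indicator_of_mem hz2]
    rfl
  · intro h0
    have hK : IsCompact (e₀.symm '' tsupport χ) :=
      hc.isCompact.image_of_continuousOn (e₀.continuousOn_symm.mono hs)
    have hyK : e.symm y ∉ e₀.symm '' tsupport χ := by
      rintro ⟨w, hw, hwy⟩
      apply h0
      rw [← hwy]
      exact e₀.map_target (hs hw)
    have hU : e.target ∩ e.symm ⁻¹' (e₀.symm '' tsupport χ)ᶜ ∈ 𝓝 y :=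
      (e.isOpen_inter_preimage_symm hK.isClosed.isOpen_compl).mem_nhds ⟨hy, hyK⟩
    refine (hasFDerivAt_const (0 : ℝ) y).congr_of_eventuallyEq ?_
    filter_upwards [hU] with z hz
    by_cases hz0 : e.symm z ∈ e₀.source
    · rw [Set.indicator_of_mem hz0]
      by_contra hne
      apply hz.2
      exact ⟨e₀ (e.symm z), subset_tsupport χ hne, e₀.left_inv hz0⟩
    · rw [Set.indicator_of_notMem hz0]

end Pool.Agent.Y614.SY
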